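import Pool.Agent.R904.RG.Defs

/-!
# Leading coefficients of Euler products
-/

set_option autoImplicit false

universe u v w

namespace Pool.Agent.R904.RG

section L

variable {ι : Type} {q : ι → ℝ} {P P' : ι → Polynomial ℂ} {F G : ℂ → ℂ}

theorem IsL.unique (hF : IsL q P F) (hG : IsL q P G) (m : ℝ) :
    F =ᶠ[nhdsWithin (m : ℂ) {(m : ℂ)}ᶜ] G := by
  obtain ⟨⟨σ, hσ⟩, hF⟩ := hF
  obtain ⟨⟨τ, hτ⟩, hG⟩ := hG
  set U : Set ℂ := (fun x : ℝ => (x : ℂ)) '' Set.univ with hU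
  have hcon : IsConnected U := by
    rw [hU]
    exact isConnected_univ.image _ Complex.continuous_ofReal.continuousOn
  have hmero : MeromorphicOn (F - G) U := by
    rintro _ ⟨x, hx, rfl⟩
    exact (hF x).sub (hG x)
  have hagree : ∀ s : ℂ, max σ τ < s.re → F s = G s := fun s hs =>
    (hσ s (lt_of_le_of_lt (le_max_left _ _) hs)).2.unique
      (hτ s (lt_of_le_of_lt (le_max_right _ _) hs)).2
  set y : ℝ := max σ τ + 1 with hy
  have hyU : (y : ℂ) ∈ U := ⟨y, Set.mem_univ _, rfl⟩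
  have hmU : (m : ℂ) ∈ U := ⟨m, Set.mem_univ _, rfl⟩
  have hytop : meromorphicOrderAt (F - G) y = ⊤ := by
    rw [meromorphicOrderAt_eq_top_iff]
    have hopen : {s : ℂ | max σ τ < s.re} ∈ nhds (y : ℂ) := by
      apply IsOpen.mem_nhds (isOpen_lt continuous_const Complex.continuous_re)
      change max σ τ < (y : ℂ).re
      rw [Complex.ofReal_re]
      linarith
    filter_upwards [nhdsWithin_le_nhds hopen] with s hs
    simp [hagree s hs]
  have hmtop : meromorphicOrderAt (F - G) m = ⊤ := by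
    by_contra hne
    exact (hmero.meromorphicOrderAt_ne_top_of_isPreconnected hcon.isPreconnected hmU hyU hne) hytop
  rw [meromorphicOrderAt_eq_top_iff] at hmtop
  filter_upwards [hmtop] with s hs
  simpa [sub_eq_zero] using hs

theorem IsL.order_ne_top (hF : IsL q P F) (m : ℝ) : meromorphicOrderAt F m ≠ ⊤ := by
  obtain ⟨⟨σ, hσ⟩, hF⟩ := hF
  set U : Set ℂ := (fun x : ℝ => (x : ℂ)) '' Set.univ with hU
  have hcon : IsConnected U := by
    rw [hU]
    exact isConnected_univ.image _ Complex.continuous_ofReal.continuousOn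
  have hmero : MeromorphicOn F U := by
    rintro _ ⟨x, hx, rfl⟩
    exact hF x
  set y : ℝ := σ + 1 with hy
  have hyU : (y : ℂ) ∈ U := ⟨y, Set.mem_univ _, rfl⟩
  have hmU : (m : ℂ) ∈ U := ⟨m, Set.mem_univ _, rfl⟩
  refine hmero.meromorphicOrderAt_ne_top_of_isPreconnected hcon.isPreconnected hyU hmU ?_
  rw [Ne, meromorphicOrderAt_eq_top_iff]
  intro h
  have hopen : {s : ℂ | σ < s.re} ∈ nhds (y : ℂ) := by
    apply IsOpen.mem_nhds (isOpen_lt continuous_const Complex.continuous_re)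
    change σ < (y : ℂ).re
    rw [Complex.ofReal_re]
    linarith
  have h2 : ∀ᶠ s in nhdsWithin (y : ℂ) {(y : ℂ)}ᶜ, False := by
    filter_upwards [h, nhdsWithin_le_nhds hopen] with s hs hs'
    exact (hσ s hs').1 hs
  simp only [Filter.eventually_false_iff_eq_bot] at h2
  exact (NormedField.nhdsNE_neBot (y : ℂ)).ne h2

theorem IsL.lc_ne_zero (hF : IsL q P F) (m : ℝ) : meromorphicTrailingCoeffAt F m ≠ 0 :=
  (hF.2 m).meromorphicTrailingCoeffAt_ne_zero (hF.order_ne_top m)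

theorem IsL.lc_eq (hF : IsL q P F) (hG : IsL q P G) (m : ℝ) :
    meromorphicTrailingCoeffAt F m = meromorphicTrailingCoeffAt G m :=
  meromorphicTrailingCoeffAt_congr_nhdsNE (hF.unique hG m)

theorem IsL.mul (hF : IsL q P F) (hG : IsL q P' G) : IsL q (fun v => P v * P' v) (fun s => F s * G s) := by
  obtain ⟨⟨σ, hσ⟩, hF⟩ := hF
  obtain ⟨⟨τ, hτ⟩, hG⟩ := hG
  refine ⟨⟨max σ τ, fun s hs => ?_⟩, fun x => (hF x).mul (hG x)⟩
  obtain ⟨h1, h2⟩ := hσ s (lt_of_le_of_lt (le_max_left _ _) hs)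
  obtain ⟨h3, h4⟩ := hτ s (lt_of_le_of_lt (le_max_right _ _) hs)
  refine ⟨mul_ne_zero h1 h3, ?_⟩
  convert h2.mul h4 using 2 with v
  rw [Polynomial.eval_mul, mul_inv]

lemma eval_twist (a : ℂ) (P : Polynomial ℂ) (z : ℂ) : (twist a P).eval z = P.eval (a * z) := by
  simp [twist]

theorem IsL.shift (hq : ∀ v, 0 < q v) (hF : IsL q P F) (n : ℤ) :
    IsL q (fun v => twist ((q v : ℂ) ^ n) (P v)) (fun s => F (s - n)) := by
  obtain ⟨⟨σ, hσ⟩, hF⟩ := hF
  refine ⟨⟨σ + n, fun s hs => ?_⟩, fun x => ?_⟩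
  · obtain ⟨h1, h2⟩ := hσ (s - n) (by simp; linarith)
    refine ⟨h1, ?_⟩
    convert h2 using 3 with v
    rw [eval_twist]
    congr 1
    have hq' : (q v : ℂ) ≠ 0 := by exact_mod_cast (hq v).ne'
    rw [← Complex.cpow_intCast, ← Complex.cpow_add _ _ hq']
    congr 1
    ring
  · rw [meromorphicAt_fun_comp_sub_const_iff_meromorphicAt]
    have := hF (x - n)
    simpa using this

theorem isL_one : IsL q (fun _ => 1) (fun _ => 1) := by
  refine ⟨⟨0, fun s _ => ⟨one_ne_zero, ?_⟩⟩, fun x => MeromorphicAt.const _ _⟩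
  have : (fun v : ι => (((1 : Polynomial ℂ)).eval ((q v : ℂ) ^ (-s)))⁻¹) = fun _ => 1 := by
    funext v
    simp
  rw [this]
  exact hasProd_one

end L

end Pool.Agent.R904.RG
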