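import Pool.Agent.R904.HB.Comb

/-!
# One diagonal suffices: a version with a range and a general symmetry
-/

set_option autoImplicit false

namespace Pool.Agent.R904.HB.GDiag

variable {Ω A : Type*} [AddCommGroup A] (D : GDiag Ω A)

/-- the conditions in the range `0 ≤ 2 m + w ≤ 2 dim X` suffice on a diagonal -/
theorem extend (c w : ℤ)
    (h : ∀ X i, D.dim X + c = 2 * i → 0 ≤ 2 * i + w → 2 * i + w ≤ 2 * D.dim X →
      D.G X i ∧ D.e X i = 0)
    (ho : ∀ X i, (2 * i + w < 0 ∨ 2 * D.dim X < 2 * i + w) → D.e X i = 0) (X : Ω) (i : ℤ)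
    (hi : D.dim X + c = 2 * i) : D.G X i ∧ D.e X i = 0 := by
  have key : ∀ t : ℕ, ∀ X i, D.dim X + c = 2 * i → -(2 * t : ℤ) ≤ 2 * i + w →
      2 * i + w ≤ 2 * D.dim X + 2 * t → D.G X i ∧ D.e X i = 0 := by
    intro t
    induction t with
    | zero =>
      intro X i hi h1 h2
      exact h X i hi (by simpa using h1) (by simpa using h2)
    | succ t ih =>
      intro X i hi h1 h2
      have h3 := ih (D.prod (D.prod X)) (i + 1) (by rw [D.dim_prod, D.dim_prod]; omega)
        (by push_cast at h1; omega) (by rw [D.dim_prod, D.dim_prod]; push_cast at h2; omega)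
      have h4 := (D.G_prod _ _ h3.1).1
      have h5 := (D.G_prod _ _ h4).2
      have e1 : i + 1 - 1 = i := by omega
      rw [e1] at h5
      refine ⟨h5, ?_⟩
      by_cases hr : 2 * i + w < 0 ∨ 2 * D.dim X < 2 * i + w
      · exact ho X i hr
      · exact (h X i hi (by omega) (by omega)).2
  obtain ⟨t, ht⟩ : ∃ t : ℕ, -(2 * t : ℤ) ≤ 2 * i + w ∧ 2 * i + w ≤ 2 * D.dim X + 2 * t := by
    refine ⟨(2 * i + w).natAbs + (2 * i + w - 2 * D.dim X).natAbs, ?_, ?_⟩ <;> omega
  exact key t X i hi ht.1 ht.2

/-- If one diagonal is fine, the defects are `2`-torsion, and zero if the diagonal is not the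
center of the symmetry. -/
theorem one' (κ c : ℤ) (h : ∀ X i, D.dim X + c = 2 * i → D.G X i ∧ D.e X i = 0)
    (hd : ∀ X, (∀ j, D.G X j) → ∀ i, D.e X i = D.e X (D.dim X + κ - i)) (X : Ω) (i : ℤ) :
    D.G X i ∧ D.e X i + D.e X i = 0 ∧ (c ≠ κ → D.e X i = 0) := by
  have hG : ∀ j, D.G X j := fun j => (D.sym' c h X j).1
  have key : ∀ j, D.e X j = - D.e X (j + (κ - c)) := by
    intro j
    have h1 := (D.sym' c h X j).2
    have h2 := hd X hG (D.dim X + c - j)
    have e : D.dim X + κ - (D.dim X + c - j) = j + (κ - c) := by omega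
    rw [e] at h2
    rw [h2] at h1
    exact eq_neg_of_add_eq_zero_left h1
  have hne : c ≠ κ → D.e X i = 0 := by
    intro hc
    have key2 : ∀ t : ℤ, 0 < t → (∀ j, D.e X j = - D.e X (j + t)) → D.e X i = 0 := by
      intro t ht hk
      have h1 : ∀ (n : ℕ) (j : ℤ), D.e X (j + n * t) = 0 → D.e X j = 0 := by
        intro n
        induction n with
        | zero => intro j hj; simpa using hj
        | succ n ih =>
          intro j hj
          apply ih
          rw [hk]
          have e : j + n * t + t = j + (n + 1 : ℕ) * t := by push_cast; ring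
          rw [e, hj, neg_zero]
      obtain ⟨n, hn⟩ := exists_nat_gt (D.dim X - i)
      have hn' : D.dim X - i < n := by exact_mod_cast hn
      apply h1 n
      apply D.e_top
      by_cases hn0 : 0 ≤ (n : ℤ)
      · nlinarith
      · omega
    rcases lt_or_gt_of_ne hc with h1 | h1
    · exact key2 (κ - c) (by omega) key
    · refine key2 (c - κ) (by omega) fun j => ?_
      have h2 := key (j + (c - κ))
      have e : j + (c - κ) + (κ - c) = j := by omega
      rw [e] at h2
      rw [h2, neg_neg]
  refine ⟨hG i, ?_, hne⟩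
  by_cases hc : c = κ
  · have h1 := key i
    rw [hc] at h1
    have e : i + (κ - κ) = i := by omega
    rw [e] at h1
    nth_rewrite 1 [h1]
    rw [neg_add_cancel]
  · rw [hne hc, add_zero]

end Pool.Agent.R904.HB.GDiag
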