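import Pool.Agent.H914R2.Weil
import Mathlib

/-!
# Beilinson's conjecture on regulators: definitions

`𝒱` is a class of smooth projective varieties over `k` closed under products. The integral motivic
cohomology `M X p q = H^p_M(X, ℚ(q))_ℤ`, the real Deligne cohomology `D X p q = H^p_D(X, ℝ(q))`, the
regulator between them and the Euler factors of the `L`-functions are given by their formal
properties. The integers `i` and `m` of the conjecture are `i = p - 1` and `m = p - q`; the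
condition `m < i / 2` is `p + 1 < 2 q`.
-/

set_option autoImplicit false

open Pool.Agent.H914 Pool.Agent.H914.VarClass Pool.Agent.H914.VarClass.Obj

universe u v w

namespace Pool.Agent.R904.RG

variable {k : Type u} [Field k] {𝒱 : VarClass k}

/-! ### `L`-functions -/

/-- The Euler factors: `Pl` is the set of the finite places `v`, `q v` the number of elements of the
residue field, and `P v X i` is the polynomial `det(1 - Frob_v T | H^i(X)^{I_v})`. -/
structure EulerZ (𝒱 : VarClass k) where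
  Pl : Type
  q : Pl → ℝ
  P : Pl → 𝒱.Obj → ℤ → Polynomial ℂ

/-- The polynomial `P(a T)`. -/
noncomputable def twist (a : ℂ) (P : Polynomial ℂ) : Polynomial ℂ :=
  P.comp (Polynomial.C a * Polynomial.X)

/-- `F` is a meromorphic continuation along the real axis of the Euler product with factors
`P_v(q_v^(-s))⁻¹`: in some half plane `F s` is this product, and not zero, and `F` is meromorphic at
all real numbers. -/
def IsL {ι : Type} (q : ι → ℝ) (P : ι → Polynomial ℂ) (F : ℂ → ℂ) : Prop :=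
  (∃ σ : ℝ, ∀ s : ℂ, σ < s.re →
    F s ≠ 0 ∧ HasProd (fun v => ((P v).eval ((q v : ℂ) ^ (-s)))⁻¹) (F s)) ∧
  ∀ x : ℝ, MeromorphicAt F x

/-- The formal properties of the Euler factors: `H^i(X) = 0` for `i < 0` and `i > 2 dim X`,
`H^i(X × L) = H^i(X) ⊕ H^(i-2)(X)(-1)`, hard Lefschetz. -/
structure IsEuler (E : EulerZ 𝒱) (L : 𝒱.Obj) : Prop where
  q_pos : ∀ v, 0 < E.q v
  bounds : ∀ v X i, (i < 0 ∨ 2 * (X.dim : ℤ) < i) → E.P v X i = 1
  line : ∀ v (X : 𝒱.Obj) i, E.P v (X.prod L) i = E.P v X i * twist (E.q v) (E.P v X (i - 2))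
  lef : ∀ v X i, i ≤ (X.dim : ℤ) →
    E.P v X (2 * X.dim - i) = twist ((E.q v : ℂ) ^ ((X.dim : ℤ) - i)) (E.P v X i)

/-- `F` is the `L`-function of `H^i(X)`. -/
def IsLFun (E : EulerZ 𝒱) (X : 𝒱.Obj) (i : ℤ) (F : ℂ → ℂ) : Prop :=
  IsL E.q (fun v => E.P v X i) F

/-- `a` and `b` agree up to a nonzero rational factor. -/
def EqQ (a b : ℂ) : Prop := ∃ q : ℚ, q ≠ 0 ∧ a = q * b

/-! ### Regulators -/

section Alg

variable {M : Type v} [AddCommGroup M] [Module ℚ M] {D : Type w} [AddCommGroup D] [Module ℝ D]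

/-- The map `r : M → D` induces an isomorphism `ℝ ⊗ M = D`: elements of `M` which are linearly
independent over `ℚ` have images which are linearly independent over `ℝ`, and the image of `M` spans
`D` over `ℝ`. -/
def IsQStr (r : M →+ D) : Prop :=
  (∀ (n : ℕ) (v : Fin n → M), LinearIndependent ℚ v → LinearIndependent ℝ fun j => r (v j)) ∧
    Submodule.span ℝ (Set.range r) = ⊤

/-- The volume of the image of a basis of `M` in terms of the basis `β` is `z`, up to `ℚ^*`. -/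
def IsVol {n : ℕ} (β : Module.Basis (Fin n) ℝ D) (r : M →+ D) (z : ℂ) : Prop :=
  ∀ b : Module.Basis (Fin n) ℚ M, EqQ z (β.det (fun j => r (b j)) : ℝ)

/-- The same for the squares. -/
def IsVolSq {n : ℕ} (β : Module.Basis (Fin n) ℝ D) (r : M →+ D) (z : ℂ) : Prop :=
  ∀ b : Module.Basis (Fin n) ℚ M, EqQ (z ^ 2) ((β.det (fun j => r (b j))) ^ 2 : ℝ)

variable {M₁ : Type v} [AddCommGroup M₁] [Module ℚ M₁] {D₁ : Type w} [AddCommGroup D₁] [Module ℝ D₁]
  {M₂ : Type v} [AddCommGroup M₂] [Module ℚ M₂] {D₂ : Type w} [AddCommGroup D₂] [Module ℝ D₂]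

/-- The volumes of `D` and `D'` given by the bases `β` and `β'` agree under `f`, up to `ℚ^*`. -/
def RatIso {n n' : ℕ} (β : Module.Basis (Fin n) ℝ D) (β' : Module.Basis (Fin n') ℝ D₁)
    (f : D ≃ₗ[ℝ] D₁) : Prop :=
  ∃ e : Fin n' ≃ Fin n, ∃ q : ℚ, q ≠ 0 ∧ β'.det (fun j => f (β (e j))) = q

/-- The regulator `r : M → D` is the direct sum of `r₁ : M₁ → D₁` and `r₂ : M₂ → D₂`, and the volume
on `D` is the product of the volumes, up to `ℚ^*`. -/
def IsSum {n n₁ n₂ : ℕ} (β : Module.Basis (Fin n) ℝ D) (β₁ : Module.Basis (Fin n₁) ℝ D₁)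
    (β₂ : Module.Basis (Fin n₂) ℝ D₂) (r : M →+ D) (r₁ : M₁ →+ D₁) (r₂ : M₂ →+ D₂) : Prop :=
  ∃ (f : (M₁ × M₂) ≃ₗ[ℚ] M) (g : (D₁ × D₂) ≃ₗ[ℝ] D), (∀ x y, r (f (x, y)) = g (r₁ x, r₂ y)) ∧
    ∃ e : Fin n ≃ Fin n₁ ⊕ Fin n₂, ∃ q : ℚ, q ≠ 0 ∧
      β.det (fun j => g ((β₁.prod β₂) (e j))) = q

/-- There is an isomorphism of `D` and `D₁`, compatible with the volumes up to `ℚ^*`, and a
compatible map from `M` to `M₁`. -/
def IsLef {n n₁ : ℕ} (β : Module.Basis (Fin n) ℝ D) (β₁ : Module.Basis (Fin n₁) ℝ D₁)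
    (r : M →+ D) (r₁ : M₁ →+ D₁) : Prop :=
  ∃ (f : M →ₗ[ℚ] M₁) (g : D ≃ₗ[ℝ] D₁), (∀ x, r₁ (f x) = g (r x)) ∧ RatIso β β₁ g

end Alg

/-- Motivic cohomology, real Deligne cohomology, the regulators, and bases `β` of the Deligne
cohomology which define the natural rational structure (on the determinant). -/
structure RegData (𝒱 : VarClass k) where
  M : 𝒱.Obj → ℤ → ℤ → Type v
  [mGroup : ∀ X p q, AddCommGroup (M X p q)]
  [mModule : ∀ X p q, Module ℚ (M X p q)]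
  D : 𝒱.Obj → ℤ → ℤ → Type w
  [dGroup : ∀ X p q, AddCommGroup (D X p q)]
  [dModule : ∀ X p q, Module ℝ (D X p q)]
  reg : ∀ X p q, M X p q →+ D X p q
  rk : 𝒱.Obj → ℤ → ℤ → ℕ
  β : ∀ X p q, Module.Basis (Fin (rk X p q)) ℝ (D X p q)

attribute [instance] RegData.mGroup RegData.mModule RegData.dGroup RegData.dModule

/-- The formal properties for the varieties in the class `S`, in the range `p + 1 < 2 q`: the Deligne
cohomology `D X p q` is zero if `p < 1` or `p > 2 dim X + 1`;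
`H^p(X × L, q) = H^p(X, q) ⊕ H^(p-2)(X, q-1)`; hard Lefschetz, from `p = i + 1` to
`2 dim X - i + 1` for `i ≤ dim X`. -/
structure IsRegTheory (R : RegData.{u, v, w} 𝒱) (L : 𝒱.Obj) (S : Set 𝒱.Obj) : Prop where
  bounds : ∀ X ∈ S, ∀ p q, p + 1 < 2 * q → (p < 1 ∨ 2 * (X.dim : ℤ) + 1 < p) → R.rk X p q = 0
  line : ∀ X ∈ S, ∀ p q, p + 1 < 2 * q → IsSum (R.β (X.prod L) p q) (R.β X p q)
    (R.β X (p - 2) (q - 1)) (R.reg (X.prod L) p q) (R.reg X p q) (R.reg X (p - 2) (q - 1))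
  lef : ∀ X ∈ S, ∀ p q, p + 1 < 2 * q → p ≤ (X.dim : ℤ) + 1 → IsLef (R.β X p q)
    (R.β X (2 * X.dim + 2 - p) (q + X.dim + 1 - p)) (R.reg X p q)
    (R.reg X (2 * X.dim + 2 - p) (q + X.dim + 1 - p))

variable (E : EulerZ 𝒱) (R : RegData.{u, v, w} 𝒱)

/-- Q1 for `X` and `i = p - 1`, `m = p - q`. -/
def Q1 (X : 𝒱.Obj) (p q : ℤ) : Prop := IsQStr (R.reg X p q)

/-- Q2: the leading coefficient of `L(H^i(X), s)` at `s = m` is the volume. -/
def Q2 (X : 𝒱.Obj) (p q : ℤ) : Prop :=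
  ∀ F, IsLFun E X (p - 1) F →
    IsVol (R.β X p q) (R.reg X p q) (meromorphicTrailingCoeffAt F ((p - q : ℤ) : ℂ))

/-- The square of Q2. -/
def Q2Sq (X : 𝒱.Obj) (p q : ℤ) : Prop :=
  ∀ F, IsLFun E X (p - 1) F →
    IsVolSq (R.β X p q) (R.reg X p q) (meromorphicTrailingCoeffAt F ((p - q : ℤ) : ℂ))

/-- The varieties in `S` all of whose `L`-functions continue along the real axis. -/
def Continuing (S : Set 𝒱.Obj) : Set 𝒱.Obj := {X | X ∈ S ∧ ∀ i, ∃ F, IsLFun E X i F}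

/-- `A X p q` holds for all `X` in `S`, `i = p - 1` and `m = p - q` with `0 ≤ i ≤ 2 dim X` and
`m < i / 2`. -/
def Everywhere (A : 𝒱.Obj → ℤ → ℤ → Prop) (S : Set 𝒱.Obj) : Prop :=
  ∀ X ∈ S, ∀ p q : ℤ, 1 ≤ p → p ≤ 2 * X.dim + 1 → p + 1 < 2 * q → A X p q

/-- The same for `dim X = i + a`. -/
def OnDiagonal (A : 𝒱.Obj → ℤ → ℤ → Prop) (S : Set 𝒱.Obj) (a : ℤ) : Prop :=
  ∀ X ∈ S, ∀ p q : ℤ, 1 ≤ p → p ≤ 2 * X.dim + 1 → p + 1 < 2 * q → (X.dim : ℤ) = p - 1 + a →
    A X p q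

end Pool.Agent.R904.RG
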