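import Pool.Agent.R904.RG.Defs
import Pool.Agent.R904.HB.Lin

/-!
# Rational structures and volumes
-/

set_option autoImplicit false

open Module

universe u v w

namespace Pool.Agent.R904.RG

open HB (CQ cls cls_mul cls_one)

lemma cls_eq_iff {a b : ℂ} (ha : a ≠ 0) (hb : b ≠ 0) : cls a = cls b ↔ EqQ a b :=
  HB.cls_eq_iff ha hb

lemma EqQ.cls {a b : ℂ} (h : EqQ a b) : cls a = cls b := HB.EqQ.cls h

section Alg

variable {M : Type v} [AddCommGroup M] [Module ℚ M] {D : Type w} [AddCommGroup D] [Module ℝ D]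

lemma rsmul (r : M →+ D) (q : ℚ) (x : M) : r (q • x) = (q : ℝ) • r x := by
  have := map_ratCast_smul r ℚ ℝ q x
  simpa using this

/-- a family with independent images is independent -/
lemma indep_of (r : M →+ D) {ι : Type*} {v : ι → M} (h : LinearIndependent ℝ fun j => r (v j)) :
    LinearIndependent ℚ v := by
  rw [linearIndependent_iff'] at h ⊢
  intro s g hg i hi
  have h1 : ∑ j ∈ s, (g j : ℝ) • r (v j) = 0 := by
    have := congrArg r hg
    rw [map_sum, map_zero] at this
    rw [← this]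
    exact Finset.sum_congr rfl fun j _ => (rsmul r (g j) (v j)).symm
  have h2 := h s (fun j => (g j : ℝ)) h1 i hi
  exact_mod_cast h2

variable {n : ℕ} (β : Basis (Fin n) ℝ D) {r : M →+ D}

include β in
lemma IsQStr.le (h : IsQStr r) {k : ℕ} {v : Fin k → M} (hv : LinearIndependent ℚ v) : k ≤ n := by
  have : Module.Finite ℝ D := Module.Finite.of_basis β
  have h1 := (h.1 k v hv).fintype_card_le_finrank
  rwa [Module.finrank_eq_card_basis β, Fintype.card_fin, Fintype.card_fin] at h1

include β in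
lemma IsQStr.finite (h : IsQStr r) : Module.Finite ℚ M := by
  let b := Basis.ofVectorSpace ℚ M
  have : Finite (Basis.ofVectorSpaceIndex ℚ M) := by
    by_contra hinf
    rw [not_finite_iff_infinite] at hinf
    obtain ⟨f⟩ : Nonempty (Fin (n + 1) ↪ Basis.ofVectorSpaceIndex ℚ M) :=
      ⟨(Fin.valEmbedding.trans (Infinite.natEmbedding _))⟩
    have h1 : LinearIndependent ℚ (fun i => b (f i)) := b.linearIndependent.comp f f.injective
    have := h.le β h1
    omega
  exact Module.Finite.of_basis b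

/-- the image of a basis spans -/
lemma span_basis (h : Submodule.span ℝ (Set.range r) = ⊤) {ι : Type*} [Fintype ι]
    (b : Basis ι ℚ M) : Submodule.span ℝ (Set.range fun j => r (b j)) = ⊤ := by
  rw [eq_top_iff, ← h, Submodule.span_le]
  rintro _ ⟨x, rfl⟩
  rw [← b.sum_repr x, map_sum]
  refine Submodule.sum_mem _ fun j _ => ?_
  rw [rsmul]
  exact Submodule.smul_mem _ _ (Submodule.subset_span ⟨j, rfl⟩)

include β in
lemma IsQStr.exists_basis (h : IsQStr r) : Nonempty (Basis (Fin n) ℚ M) := by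
  have hfin := h.finite β
  have : Module.Finite ℝ D := Module.Finite.of_basis β
  let b := finBasis ℚ M
  have h1 := h.1 _ b b.linearIndependent
  have h2 := span_basis h.2 b
  have h3 : finrank ℝ D = finrank ℚ M := by
    have := finrank_span_eq_card h1
    rw [h2, finrank_top, Fintype.card_fin] at this
    exact this
  rw [Module.finrank_eq_card_basis β, Fintype.card_fin] at h3
  exact ⟨finBasisOfFinrankEq ℚ M h3.symm⟩

lemma IsQStr.det_ne_zero (h : IsQStr r) (b : Basis (Fin n) ℚ M) :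
    β.det (fun j => r (b j)) ≠ 0 := by
  have h1 := h.1 _ b b.linearIndependent
  have h2 := span_basis h.2 b
  exact (β.is_basis_iff_det.1 ⟨h1, h2⟩).ne_zero

lemma det_change (b c : Basis (Fin n) ℚ M) :
    EqQ (β.det (fun j => r (b j)) : ℝ) (β.det (fun j => r (c j)) : ℝ) := by
  have hP : (c.toMatrix b).det ≠ 0 := by
    have := c.isUnit_det b
    rw [Basis.det_apply] at this
    exact this.ne_zero
  refine ⟨(c.toMatrix b).det, hP, ?_⟩
  have h1 : β.toMatrix (fun j => r (b j)) =
      β.toMatrix (fun j => r (c j)) * (c.toMatrix b).map (Rat.castHom ℝ) := by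
    ext i j
    have hb : r (b j) = ∑ x, (c.toMatrix b x j : ℝ) • r (c x) := by
      have h := congrArg r (c.sum_toMatrix_smul_self b j)
      rw [← h, map_sum]
      exact Finset.sum_congr rfl fun x _ => rsmul r _ _
    rw [Basis.toMatrix_apply, hb, map_sum, Finsupp.finsetSum_apply, Matrix.mul_apply]
    refine Finset.sum_congr rfl fun x _ => ?_
    rw [map_smul, Finsupp.smul_apply, smul_eq_mul, mul_comm]
    rfl
  have h2 : ((c.toMatrix b).map (Rat.castHom ℝ)).det = ((c.toMatrix b).det : ℝ) := by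
    have := RingHom.map_det (Rat.castHom ℝ) (c.toMatrix b)
    simpa using this.symm
  rw [Basis.det_apply, Basis.det_apply, h1, Matrix.det_mul, h2, Complex.ofReal_mul,
    Complex.ofReal_ratCast]
  ring

open Classical in
/-- the class of the volume -/
noncomputable def vol (β : Basis (Fin n) ℝ D) (r : M →+ D) : CQ :=
  if h : Nonempty (Basis (Fin n) ℚ M) then cls (β.det (fun j => r (h.some j)) : ℝ) else 1

lemma vol_eq (b : Basis (Fin n) ℚ M) : vol β r = cls (β.det (fun j => r (b j)) : ℝ) := by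
  rw [vol, dif_pos ⟨b⟩]
  exact (det_change β _ b).cls

lemma vol_zero (β : Basis (Fin n) ℝ D) (hn : n = 0) : vol β r = 1 := by
  subst hn
  by_cases h : Nonempty (Basis (Fin 0) ℚ M)
  · obtain ⟨b⟩ := h
    rw [vol_eq β b, Basis.det_apply, Matrix.det_isEmpty]
    exact cls_one
  · rw [vol, dif_neg h]

variable {M₁ : Type v} [AddCommGroup M₁] [Module ℚ M₁] {D₁ : Type w} [AddCommGroup D₁] [Module ℝ D₁]
  {M₂ : Type v} [AddCommGroup M₂] [Module ℚ M₂] {D₂ : Type w} [AddCommGroup D₂] [Module ℝ D₂]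
  {n₁ n₂ : ℕ} {β₁ : Basis (Fin n₁) ℝ D₁} {β₂ : Basis (Fin n₂) ℝ D₂} {r₁ : M₁ →+ D₁} {r₂ : M₂ →+ D₂}
  {β}

theorem IsSum.left (h : IsSum β β₁ β₂ r r₁ r₂) (hr : IsQStr r) : IsQStr r₁ := by
  obtain ⟨f, g, hfg, _⟩ := h
  constructor
  · intro k v hv
    have h1 : LinearIndependent ℚ (fun j => f (v j, 0)) := by
      have : LinearIndependent ℚ (fun j => (f.toLinearMap ∘ₗ LinearMap.inl ℚ M₁ M₂) (v j)) := by
        apply hv.map' (f.toLinearMap ∘ₗ LinearMap.inl ℚ M₁ M₂)
        rw [LinearMap.ker_eq_bot]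
        exact f.injective.comp LinearMap.inl_injective
      exact this
    have h2 := hr.1 k _ h1
    apply LinearIndependent.of_comp (g.toLinearMap ∘ₗ LinearMap.inl ℝ D₁ D₂)
    convert h2 using 2 with j
    rw [hfg, map_zero]
    rfl
  · have h1 : Submodule.map ((LinearMap.fst ℝ D₁ D₂) ∘ₗ g.symm.toLinearMap)
        (Submodule.span ℝ (Set.range r)) = ⊤ := by
      rw [hr.2, Submodule.map_top, LinearMap.range_eq_top]
      exact (LinearMap.fst_surjective (R := ℝ) (M := D₁) (M₂ := D₂)).comp g.symm.surjective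
    rw [Submodule.map_span] at h1
    rw [eq_top_iff, ← h1, Submodule.span_le]
    rintro _ ⟨_, ⟨x, rfl⟩, rfl⟩
    apply Submodule.subset_span
    obtain ⟨⟨y, z⟩, rfl⟩ := f.surjective x
    refine ⟨y, ?_⟩
    change r₁ y = (g.symm (r (f (y, z)))).1
    rw [hfg, LinearEquiv.symm_apply_apply]

theorem IsSum.right (h : IsSum β β₁ β₂ r r₁ r₂) (hr : IsQStr r) : IsQStr r₂ := by
  obtain ⟨f, g, hfg, _⟩ := h
  constructor
  · intro k v hv
    have h1 : LinearIndependent ℚ (fun j => f (0, v j)) := by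
      have : LinearIndependent ℚ (fun j => (f.toLinearMap ∘ₗ LinearMap.inr ℚ M₁ M₂) (v j)) := by
        apply hv.map' (f.toLinearMap ∘ₗ LinearMap.inr ℚ M₁ M₂)
        rw [LinearMap.ker_eq_bot]
        exact f.injective.comp LinearMap.inr_injective
      exact this
    have h2 := hr.1 k _ h1
    apply LinearIndependent.of_comp (g.toLinearMap ∘ₗ LinearMap.inr ℝ D₁ D₂)
    convert h2 using 2 with j
    rw [hfg, map_zero]
    rfl
  · have h1 : Submodule.map ((LinearMap.snd ℝ D₁ D₂) ∘ₗ g.symm.toLinearMap)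
        (Submodule.span ℝ (Set.range r)) = ⊤ := by
      rw [hr.2, Submodule.map_top, LinearMap.range_eq_top]
      exact (LinearMap.snd_surjective (R := ℝ) (M := D₁) (M₂ := D₂)).comp g.symm.surjective
    rw [Submodule.map_span] at h1
    rw [eq_top_iff, ← h1, Submodule.span_le]
    rintro _ ⟨_, ⟨x, rfl⟩, rfl⟩
    apply Submodule.subset_span
    obtain ⟨⟨y, z⟩, rfl⟩ := f.surjective x
    refine ⟨z, ?_⟩
    change r₂ z = (g.symm (r (f (y, z)))).2
    rw [hfg, LinearEquiv.symm_apply_apply]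

/-- the volume of a direct sum -/
theorem IsSum.vol (h : IsSum β β₁ β₂ r r₁ r₂) (hr : IsQStr r) :
    vol β r = RG.vol β₁ r₁ * RG.vol β₂ r₂ := by
  have hr₁ := h.left hr
  have hr₂ := h.right hr
  obtain ⟨b₁⟩ := hr₁.exists_basis β₁
  obtain ⟨b₂⟩ := hr₂.exists_basis β₂
  obtain ⟨f, g, hfg, e, q, hq0, hq⟩ := h
  let b : Basis (Fin n) ℚ M := ((b₁.prod b₂).map f).reindex e.symm
  let γ : Basis (Fin n) ℝ D := ((β₁.prod β₂).map g).reindex e.symm
  have hγ : (γ : Fin n → D) = fun j => g ((β₁.prod β₂) (e j)) := by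
    funext j
    simp [γ]
  have h1 : β.det = (β.det γ) • γ.det := AlternatingMap.eq_smul_basis_det γ β.det
  have h2 : β.det γ = q := by rw [hγ]; exact hq
  set w : Fin n₁ ⊕ Fin n₂ → D₁ × D₂ :=
    Sum.elim (fun i => (r₁ (b₁ i), 0)) (fun i => (0, r₂ (b₂ i))) with hw
  have h3 : (fun j => r (b j)) = (g ∘ w) ∘ e := by
    funext j
    simp only [b, Basis.reindex_apply, Basis.map_apply, Equiv.symm_symm, Function.comp_apply]
    rcases he : e j with i | i
    · rw [Basis.prod_apply]
      simp [hw, hfg]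
    · rw [Basis.prod_apply]
      simp [hw, hfg]
  have h4 : γ.det ((g ∘ w) ∘ e) = β₁.det (fun i => r₁ (b₁ i)) * β₂.det (fun i => r₂ (b₂ i)) := by
    rw [Basis.det_reindex_symm, Basis.det_map, Basis.det_apply, Basis.det_apply, Basis.det_apply,
      ← Matrix.det_fromBlocks_zero₂₁ _ 0]
    congr 1
    ext i j
    rcases i with i | i <;> rcases j with j | j <;>
      simp [Basis.toMatrix_apply, hw]
  rw [vol_eq β b, vol_eq β₁ b₁, vol_eq β₂ b₂, h3, h1, AlternatingMap.smul_apply, h2, h4]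
  have n1 := hr₁.det_ne_zero β₁ b₁
  have n2 := hr₂.det_ne_zero β₂ b₂
  rw [← cls_mul (by exact_mod_cast n1) (by exact_mod_cast n2)]
  apply EqQ.cls
  refine ⟨q, hq0, ?_⟩
  rw [smul_eq_mul]
  push_cast
  ring

/-- the volume under the Lefschetz isomorphism -/
theorem IsLef.vol (h : IsLef β β₁ r r₁) (hr : IsQStr r) (hr₁ : IsQStr r₁) :
    RG.vol β₁ r₁ = vol β r := by
  obtain ⟨b⟩ := hr.exists_basis β
  obtain ⟨c⟩ := hr₁.exists_basis β₁
  obtain ⟨f, g, hfg, e, q, hq0, hq⟩ := h
  have : Module.Finite ℚ M₁ := Module.Finite.of_basis c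
  have h1 : LinearIndependent ℝ (fun j => r₁ (f (b (e j)))) := by
    have h2 := (hr.1 _ b b.linearIndependent).comp e e.injective
    have h3 : LinearIndependent ℝ (fun j => g.toLinearMap (r (b (e j)))) :=
      h2.map' g.toLinearMap (LinearMap.ker_eq_bot.2 g.injective)
    convert h3 using 2 with j
    exact hfg _
  have h2 := indep_of r₁ h1
  have hcard : Fintype.card (Fin n₁) = finrank ℚ M₁ := (Module.finrank_eq_card_basis c).symm
  let b₁ : Basis (Fin n₁) ℚ M₁ := basisOfLinearIndependentOfCardEqFinrank' _ h2 hcard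
  have hb₁ : ∀ j, b₁ j = f (b (e j)) := fun j => by
    simp [b₁]
  let γ : Basis (Fin n₁) ℝ D₁ := (β.map g).reindex e.symm
  have hγ : (γ : Fin n₁ → D₁) = fun j => g (β (e j)) := by
    funext j
    simp [γ]
  have h3 : β₁.det = (β₁.det γ) • γ.det := AlternatingMap.eq_smul_basis_det γ β₁.det
  have h4 : β₁.det γ = q := by rw [hγ]; exact hq
  have h5 : (fun j => r₁ (b₁ j)) = (g ∘ fun j => r (b j)) ∘ e := by
    funext j
    rw [hb₁, hfg]
    rfl
  have h6 : γ.det ((g ∘ fun j => r (b j)) ∘ e) = β.det (fun j => r (b j)) := by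
    rw [Basis.det_reindex_symm, Basis.det_map]
    congr 1
    funext j
    simp
  rw [vol_eq β₁ b₁, vol_eq β b, h5, h3, AlternatingMap.smul_apply, h4, h6]
  apply EqQ.cls
  exact ⟨q, hq0, by rw [smul_eq_mul]; push_cast; ring⟩

end Alg

end Pool.Agent.R904.RG
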