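import Pool.Agent.R904.RG.Ana
import Pool.Agent.R904.RG.Lin
import Pool.Agent.R904.RG.Comb

/-!
# Beilinson's conjecture on regulators: one diagonal suffices
-/

set_option autoImplicit false

open Pool.Agent.H914 Pool.Agent.H914.VarClass Pool.Agent.H914.VarClass.Obj

universe u v w

namespace Pool.Agent.R904.RG

open HB (CQ cls cls_mul cls_one GDiag)

variable {k : Type u} [Field k] {𝒱 : VarClass k} {E : EulerZ 𝒱} {R : RegData.{u, v, w} 𝒱}
  {L X : 𝒱.Obj} {S : Set 𝒱.Obj}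

/-! ### Regulators -/

/-- the class of the volume -/
noncomputable def nu (R : RegData.{u, v, w} 𝒱) (X : 𝒱.Obj) (p q : ℤ) : CQ :=
  vol (R.β X p q) (R.reg X p q)

variable (hR : IsRegTheory R L S) (hXS : X ∈ S)
include hR hXS

lemma Q1_prod {p q : ℤ} (h : p + 1 < 2 * q) (hX : Q1 R (X.prod L) p q) :
    Q1 R X p q ∧ Q1 R X (p - 2) (q - 1) :=
  ⟨(hR.line X hXS p q h).left hX, (hR.line X hXS p q h).right hX⟩

lemma nu_prod {p q : ℤ} (h : p + 1 < 2 * q) (hX : Q1 R (X.prod L) p q) :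
    nu R (X.prod L) p q = nu R X p q * nu R X (p - 2) (q - 1) :=
  (hR.line X hXS p q h).vol hX

lemma nu_out {p q : ℤ} (h : p + 1 < 2 * q) (ho : p < 1 ∨ 2 * (X.dim : ℤ) + 1 < p) :
    nu R X p q = 1 :=
  vol_zero _ (hR.bounds X hXS p q h ho)

lemma nu_lef {p q : ℤ} (h : p + 1 < 2 * q) (hp : p ≤ (X.dim : ℤ) + 1) (h1 : Q1 R X p q)
    (h2 : Q1 R X (2 * X.dim + 2 - p) (q + X.dim + 1 - p)) :
    nu R X (2 * X.dim + 2 - p) (q + X.dim + 1 - p) = nu R X p q :=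
  (hR.lef X hXS p q h hp).vol h1 h2

lemma subsingleton_of {p q : ℤ} (h : p + 1 < 2 * q) (ho : p < 1 ∨ 2 * (X.dim : ℤ) + 1 < p)
    (h1 : Q1 R X p q) : Subsingleton (R.M X p q) := by
  have h2 := hR.bounds X hXS p q h ho
  by_contra hns
  rw [not_subsingleton_iff_nontrivial] at hns
  obtain ⟨x, hx⟩ := exists_ne (0 : R.M X p q)
  have h3 : LinearIndependent ℚ (fun _ : Fin 1 => x) :=
    linearIndependent_unique_iff.2 hx
  have := IsQStr.le (R.β X p q) h1 h3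
  omega

omit hR hXS

/-! ### `L`-functions -/

open Classical in
/-- the leading coefficient of `L(H^i(X), s)` at `s = m` -/
noncomputable def lcf (E : EulerZ 𝒱) (X : 𝒱.Obj) (i m : ℤ) : ℂ :=
  if h : ∃ F, IsLFun E X i F then meromorphicTrailingCoeffAt h.choose (m : ℂ) else 1

lemma lcf_eq {i m : ℤ} {F : ℂ → ℂ} (hF : IsLFun E X i F) :
    lcf E X i m = meromorphicTrailingCoeffAt F (m : ℂ) := by
  have h : ∃ F, IsLFun E X i F := ⟨F, hF⟩
  rw [lcf, dif_pos h]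
  have := IsL.lc_eq h.choose_spec hF (m : ℝ)
  simpa using this

lemma lcf_ne_zero {i m : ℤ} (h : ∃ F, IsLFun E X i F) : lcf E X i m ≠ 0 := by
  obtain ⟨F, hF⟩ := h
  rw [lcf_eq hF]
  have := IsL.lc_ne_zero hF (m : ℝ)
  simpa using this

variable (hE : IsEuler E L)
include hE

lemma lcf_out {i m : ℤ} (h : i < 0 ∨ 2 * (X.dim : ℤ) < i) : lcf E X i m = 1 := by
  have h1 : IsLFun E X i (fun _ => 1) := by
    have e : (fun v => E.P v X i) = fun _ => 1 := funext fun v => hE.bounds v X i h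
    unfold IsLFun
    rw [e]
    exact isL_one
  rw [lcf_eq h1, meromorphicTrailingCoeffAt_const]

lemma isLFun_prod {i : ℤ} {F G : ℂ → ℂ} (hF : IsLFun E X i F) (hG : IsLFun E X (i - 2) G) :
    IsLFun E (X.prod L) i (fun s => F s * G (s - 1)) := by
  have h1 := IsL.shift hE.q_pos hG 1
  have h2 := IsL.mul hF h1
  unfold IsLFun
  convert h2 using 2 with v s
  · rw [hE.line v X i]
    simp
  · simp

lemma continuing_prod (hX : ∀ i, ∃ F, IsLFun E X i F) (i : ℤ) :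
    ∃ F, IsLFun E (X.prod L) i F := by
  obtain ⟨F, hF⟩ := hX i
  obtain ⟨G, hG⟩ := hX (i - 2)
  exact ⟨_, isLFun_prod hE hF hG⟩

lemma lcf_prod (hX : ∀ i, ∃ F, IsLFun E X i F) (i m : ℤ) :
    lcf E (X.prod L) i m = lcf E X i m * lcf E X (i - 2) (m - 1) := by
  obtain ⟨F, hF⟩ := hX i
  obtain ⟨G, hG⟩ := hX (i - 2)
  rw [lcf_eq (isLFun_prod hE hF hG), lcf_eq hF, lcf_eq hG]
  have h1 : MeromorphicAt F (m : ℂ) := by
    have := hF.2 (m : ℝ)
    simpa using this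
  have h2 : MeromorphicAt (fun s => G (s - 1)) (m : ℂ) := by
    have := (IsL.shift hE.q_pos hG 1).2 (m : ℝ)
    simpa using this
  rw [MeromorphicAt.meromorphicTrailingCoeffAt_fun_mul h1 h2,
    meromorphicTrailingCoeffAt_fun_comp_sub_const_eq_meromorphicTrailingCoeffAt]
  push_cast
  rfl

lemma lcf_lef (hX : ∀ i, ∃ F, IsLFun E X i F) {i : ℤ} (hi : i ≤ (X.dim : ℤ)) (m : ℤ) :
    lcf E X (2 * X.dim - i) (m + X.dim - i) = lcf E X i m := by
  obtain ⟨F, hF⟩ := hX i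
  have h1 := IsL.shift hE.q_pos hF ((X.dim : ℤ) - i)
  have h2 : IsLFun E X (2 * X.dim - i) (fun s => F (s - (((X.dim : ℤ) - i : ℤ) : ℂ))) := by
    unfold IsLFun
    convert h1 using 2 with v
    exact hE.lef v X i hi
  rw [lcf_eq h2, lcf_eq hF,
    meromorphicTrailingCoeffAt_fun_comp_sub_const_eq_meromorphicTrailingCoeffAt]
  congr 1
  push_cast
  ring

omit hE

/-! ### The systems -/

/-- the defect, as a function of `m`, for `i = 2 m + w` -/
noncomputable def dfc (E : EulerZ 𝒱) (R : RegData.{u, v, w} 𝒱) (X : 𝒱.Obj) (p q : ℤ) :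
    Additive CQ :=
  Additive.ofMul (cls (lcf E X (p - 1) (p - q)) * (nu R X p q)⁻¹)

lemma dfc_out (hE : IsEuler E L) (hR : IsRegTheory R L S) (hXS : X ∈ S) {p q : ℤ} (h : p + 1 < 2 * q)
    (ho : p < 1 ∨ 2 * (X.dim : ℤ) + 1 < p) : dfc E R X p q = 0 := by
  rw [dfc, lcf_out hE (by omega), nu_out hR hXS h ho, cls_one]
  simp

lemma dfc_prod (hE : IsEuler E L) (hR : IsRegTheory R L S) (hXS : X ∈ S) (hX : ∀ i, ∃ F, IsLFun E X i F)
    {p q : ℤ} (h : p + 1 < 2 * q) (h1 : Q1 R (X.prod L) p q) :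
    dfc E R (X.prod L) p q = dfc E R X p q + dfc E R X (p - 2) (q - 1) := by
  have e1 : p - 2 - 1 = p - 1 - 2 := by ring
  have e2 : p - 2 - (q - 1) = p - q - 1 := by ring
  rw [dfc, dfc, dfc, lcf_prod hE hX, nu_prod hR hXS h h1, e1, e2,
    cls_mul (lcf_ne_zero (hX _)) (lcf_ne_zero (hX _)), ← ofMul_mul]
  congr 1
  rw [mul_inv, mul_mul_mul_comm]

lemma dfc_lef (hE : IsEuler E L) (hR : IsRegTheory R L S) (hXS : X ∈ S) (hX : ∀ i, ∃ F, IsLFun E X i F)
    {p q : ℤ} (h : p + 1 < 2 * q) (hp : p ≤ (X.dim : ℤ) + 1) (h1 : Q1 R X p q)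
    (h2 : Q1 R X (2 * X.dim + 2 - p) (q + X.dim + 1 - p)) :
    dfc E R X (2 * X.dim + 2 - p) (q + X.dim + 1 - p) = dfc E R X p q := by
  have h3 := lcf_lef hE hX (i := p - 1) (by omega) (p - q)
  have e1 : 2 * (X.dim : ℤ) + 2 - p - 1 = 2 * X.dim - (p - 1) := by ring
  have e2 : 2 * (X.dim : ℤ) + 2 - p - (q + X.dim + 1 - p) = p - q + X.dim - (p - 1) := by ring
  rw [dfc, dfc, nu_lef hR hXS h hp h1 h2, e1, e2, h3]

/-- the system of the regulators -/
noncomputable def sys1 (hR : IsRegTheory R L S) (hL : L.dim = 1) (hS : ∀ X ∈ S, X.prod L ∈ S)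
    (wt : ℤ) (hw : 0 < wt) : GDiag S ℤ where
  dim X := X.1.dim
  prod X := ⟨X.1.prod L, hS _ X.2⟩
  dim_prod X := by
    change (((X.1.prod L).dim : ℕ) : ℤ) = X.1.dim + 1
    rw [dim_prod, hL]
    push_cast
    ring
  G X m := Q1 R X.1 (2 * m + wt + 1) (m + wt + 1)
  e _ _ := 0
  G_prod := by
    intro X m h
    have e1 : 2 * (m - 1) + wt + 1 = 2 * m + wt + 1 - 2 := by ring
    have e2 : m - 1 + wt + 1 = m + wt + 1 - 1 := by ring
    rw [e1, e2]
    exact Q1_prod hR X.2 (by omega) h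
  e_prod := fun _ _ _ => rfl
  e_top := fun _ _ _ => rfl

/-- the system of the regulators and the `L`-values -/
noncomputable def sys2 (hE : IsEuler E L) (hR : IsRegTheory R L S) (hL : L.dim = 1)
    (hS : ∀ X ∈ S, X.prod L ∈ S) (wt : ℤ) (hw : 0 < wt) :
    GDiag (Continuing E S) (Additive CQ) where
  dim X := X.1.dim
  prod X := ⟨X.1.prod L, hS _ X.2.1, continuing_prod hE X.2.2⟩
  dim_prod X := by
    change (((X.1.prod L).dim : ℕ) : ℤ) = X.1.dim + 1
    rw [dim_prod, hL]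
    push_cast
    ring
  G X m := Q1 R X.1 (2 * m + wt + 1) (m + wt + 1)
  e X m := dfc E R X.1 (2 * m + wt + 1) (m + wt + 1)
  G_prod := by
    intro X m h
    have e1 : 2 * (m - 1) + wt + 1 = 2 * m + wt + 1 - 2 := by ring
    have e2 : m - 1 + wt + 1 = m + wt + 1 - 1 := by ring
    rw [e1, e2]
    exact Q1_prod hR X.2.1 (by omega) h
  e_prod := by
    intro X m h
    have e1 : 2 * (m - 1) + wt + 1 = 2 * m + wt + 1 - 2 := by ring
    have e2 : m - 1 + wt + 1 = m + wt + 1 - 1 := by ring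
    rw [e1, e2]
    exact dfc_prod hE hR X.2.1 X.2.2 (by omega) h
  e_top := by
    intro X m h
    exact dfc_out hE hR X.2.1 (by omega) (by omega)

/-! ### Consequences -/

section Iff

variable {p q : ℤ}

lemma Q2_iff (hX : ∀ i, ∃ F, IsLFun E X i F) (h1 : Q1 R X p q) :
    Q2 E R X p q ↔ dfc E R X p q = 0 := by
  have hl : lcf E X (p - 1) (p - q) ≠ 0 := lcf_ne_zero (hX _)
  have key : ∀ b : Module.Basis (Fin (R.rk X p q)) ℚ (R.M X p q), dfc E R X p q = 0 ↔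
      EqQ (lcf E X (p - 1) (p - q)) ((R.β X p q).det (fun j => R.reg X p q (b j)) : ℝ) := by
    intro b
    have hd : (((R.β X p q).det (fun j => R.reg X p q (b j)) : ℝ) : ℂ) ≠ 0 := by
      exact_mod_cast IsQStr.det_ne_zero (R.β X p q) h1 b
    rw [dfc, nu, vol_eq (R.β X p q) b, ofMul_eq_zero, mul_inv_eq_one, cls_eq_iff hl hd]
  constructor
  · intro h
    obtain ⟨F, hF⟩ := hX (p - 1)
    obtain ⟨b⟩ := IsQStr.exists_basis (R.β X p q) h1
    rw [key b, lcf_eq hF]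
    exact h F hF b
  · intro h F hF b
    rw [← lcf_eq hF]
    exact (key b).1 h

lemma Q2Sq_of (hX : ∀ i, ∃ F, IsLFun E X i F) (h1 : Q1 R X p q)
    (h : dfc E R X p q + dfc E R X p q = 0) : Q2Sq E R X p q := by
  intro F hF b
  have hl : lcf E X (p - 1) (p - q) ≠ 0 := lcf_ne_zero (hX _)
  have hd : (((R.β X p q).det (fun j => R.reg X p q (b j)) : ℝ) : ℂ) ≠ 0 := by
    exact_mod_cast IsQStr.det_ne_zero (R.β X p q) h1 b
  rw [← lcf_eq hF]
  have h3 : cls (lcf E X (p - 1) (p - q) ^ 2) =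
      cls ((((R.β X p q).det (fun j => R.reg X p q (b j)) : ℝ) : ℂ) ^ 2) := by
    rw [pow_two, pow_two, cls_mul hl hl, cls_mul hd hd]
    rw [dfc, nu, vol_eq (R.β X p q) b, ← ofMul_mul, ofMul_eq_zero] at h
    set a := cls (lcf E X (p - 1) (p - q))
    set c := cls (((R.β X p q).det (fun j => R.reg X p q (b j)) : ℝ) : ℂ)
    have h5 : a * a = (a * c⁻¹ * (a * c⁻¹)) * (c * c) := by
      rw [mul_mul_mul_comm a c⁻¹ a c⁻¹, mul_assoc (a * a), ← mul_inv c c, inv_mul_cancel, mul_one]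
    rw [h5, h, one_mul]
  have h4 := (cls_eq_iff (pow_ne_zero 2 hl) (pow_ne_zero 2 hd)).1 h3
  push_cast
  exact h4

end Iff

section Final

variable (hE : IsEuler E L) (hR : IsRegTheory R L S) (hL : L.dim = 1)
  (hS : ∀ X ∈ S, X.prod L ∈ S)

include hR hL hS in
/-- Q1 everywhere, also outside the range -/
theorem Q1_of_diag (a : ℤ) (h : OnDiagonal (Q1 R) S a) :
    ∀ X ∈ S, ∀ p q : ℤ, p + 1 < 2 * q → Q1 R X p q := by
  intro X hX p q hpq
  have hw : 0 < 2 * q - p - 1 := by omega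
  have key := (sys1 hR hL hS (2 * q - p - 1) hw).sym' (-(2 * q - p - 1) - a)
    ((sys1 hR hL hS (2 * q - p - 1) hw).extend (-(2 * q - p - 1) - a) (2 * q - p - 1) (by
      intro Y m hm h1 h2
      refine ⟨?_, rfl⟩
      change (Y.1.dim : ℤ) + (-(2 * q - p - 1) - a) = 2 * m at hm
      change 2 * m + (2 * q - p - 1) ≤ 2 * (Y.1.dim : ℤ) at h2
      exact h Y.1 Y.2 _ _ (by omega) (by omega) (by omega) (by omega)) (fun _ _ _ => rfl))
    ⟨X, hX⟩ (p - q)
  have h3 : Q1 R X (2 * (p - q) + (2 * q - p - 1) + 1) (p - q + (2 * q - p - 1) + 1) := key.1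
  have e1 : 2 * (p - q) + (2 * q - p - 1) + 1 = p := by ring
  have e2 : p - q + (2 * q - p - 1) + 1 = q := by ring
  rwa [e1, e2] at h3

include hE hR hL hS in
theorem key2 (a : ℤ) (h : OnDiagonal (fun X p q => Q1 R X p q ∧ Q2 E R X p q) (Continuing E S) a) :
    ∀ X ∈ Continuing E S, ∀ p q : ℤ, p + 1 < 2 * q → Q1 R X p q ∧
      dfc E R X p q + dfc E R X p q = 0 ∧ (a ≠ 0 → dfc E R X p q = 0) := by
  intro X hX p q hpq
  have hw : 0 < 2 * q - p - 1 := by omega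
  set wt := 2 * q - p - 1 with hwt
  have key := (sys2 hE hR hL hS wt hw).one' (-wt) (-wt - a)
    ((sys2 hE hR hL hS wt hw).extend (-wt - a) wt (by
      intro Y m hm h1 h2
      change (Y.1.dim : ℤ) + (-wt - a) = 2 * m at hm
      change 2 * m + wt ≤ 2 * (Y.1.dim : ℤ) at h2
      have h3 := h Y.1 Y.2 (2 * m + wt + 1) (m + wt + 1) (by omega) (by omega) (by omega)
        (by omega)
      exact ⟨h3.1, (Q2_iff Y.2.2 h3.1).1 h3.2⟩) (by
      intro Y m ho
      change 2 * m + wt < 0 ∨ 2 * (Y.1.dim : ℤ) < 2 * m + wt at ho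
      exact dfc_out hE hR Y.2.1 (by omega) (by omega))) (by
    intro Y hG m
    change ∀ j, Q1 R Y.1 (2 * j + wt + 1) (j + wt + 1) at hG
    change dfc E R Y.1 (2 * m + wt + 1) (m + wt + 1) =
      dfc E R Y.1 (2 * ((Y.1.dim : ℤ) + -wt - m) + wt + 1) ((Y.1.dim : ℤ) + -wt - m + wt + 1)
    have e1 : ∀ m : ℤ, 2 * ((Y.1.dim : ℤ) + -wt - m) + wt + 1 =
        2 * Y.1.dim + 2 - (2 * m + wt + 1) := by intro m; ring
    have e2 : ∀ m : ℤ, (Y.1.dim : ℤ) + -wt - m + wt + 1 =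
        m + wt + 1 + Y.1.dim + 1 - (2 * m + wt + 1) := by intro m; ring
    by_cases hp : 2 * m + wt + 1 ≤ (Y.1.dim : ℤ) + 1
    · have hg := hG ((Y.1.dim : ℤ) + -wt - m)
      rw [e1, e2] at hg ⊢
      exact (dfc_lef hE hR Y.2.1 Y.2.2 (by omega) hp (hG m) hg).symm
    · set m' := (Y.1.dim : ℤ) + -wt - m with hm'
      have hg := hG m
      have em : m = (Y.1.dim : ℤ) + -wt - m' := by rw [hm']; ring
      have e3 : 2 * m + wt + 1 = 2 * Y.1.dim + 2 - (2 * m' + wt + 1) := by rw [hm']; ring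
      have e4 : m + wt + 1 = m' + wt + 1 + Y.1.dim + 1 - (2 * m' + wt + 1) := by rw [hm']; ring
      rw [e3, e4] at hg ⊢
      exact dfc_lef hE hR Y.2.1 Y.2.2 (by omega) (by omega) (hG m') hg) ⟨X, hX⟩ (p - q)
  have h3 : Q1 R X (2 * (p - q) + wt + 1) (p - q + wt + 1) ∧
      dfc E R X (2 * (p - q) + wt + 1) (p - q + wt + 1) +
        dfc E R X (2 * (p - q) + wt + 1) (p - q + wt + 1) = 0 ∧
      (-wt - a ≠ -wt → dfc E R X (2 * (p - q) + wt + 1) (p - q + wt + 1) = 0) := key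
  have e1 : 2 * (p - q) + wt + 1 = p := by rw [hwt]; ring
  have e2 : p - q + wt + 1 = q := by rw [hwt]; ring
  rw [e1, e2] at h3
  exact ⟨h3.1, h3.2.1, fun ha => h3.2.2 (by omega)⟩

end Final

end Pool.Agent.R904.RG
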